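import Pool.Agent.Run7.h582.OD.Od4
import Pool.Agent.N647.TS.MulL

set_option autoImplicit false

/-!
Families of pairs of integers, fibred over a family of first coordinates: uniform distribution in the residue classes, and the
passage from a bound for families of pairs to a bound for almost all first coordinates.
-/

namespace Pool.Agent.Run7.h582.CF

open Finset
open Pool.Agent.Run7.h582.OD (Uni)
open Pool.Agent.N647.TS (WellN)
open Pool.Agent.TH894.NE (box mem_box)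
open scoped Classical

lemma tr {τ α : Type} [Inhabited α] (T : Finset τ) (w : τ → α) : ∃ w' : ℕ → α, ∀ Q : α → Prop,
    ((range T.card).filter fun n => Q (w' n)).card = (T.filter fun i => Q (w i)).card := by
  obtain ⟨e, he⟩ : ∃ e : {x // x ∈ T} ≃ Fin T.card, e = T.equivFin := ⟨_, rfl⟩
  refine ⟨fun n => if h : n < T.card then w (e.symm ⟨n, h⟩) else default, fun Q => ?_⟩
  symm
  refine Finset.card_bij (fun i hi => (e ⟨i, (mem_filter.1 hi).1⟩ : ℕ)) ?_ ?_ ?_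
  · intro i hi
    rw [mem_filter, mem_range]
    refine ⟨(e ⟨i, (mem_filter.1 hi).1⟩).2, ?_⟩
    beta_reduce
    rw [dif_pos (e ⟨i, (mem_filter.1 hi).1⟩).2]
    simp only [Fin.eta, Equiv.symm_apply_apply]
    exact (mem_filter.1 hi).2
  · intro i hi j hj h
    have h1 : e ⟨i, (mem_filter.1 hi).1⟩ = e ⟨j, (mem_filter.1 hj).1⟩ := Fin.ext h
    have h2 := e.injective h1
    exact congrArg Subtype.val h2
  · intro n hn
    rw [mem_filter, mem_range] at hn
    obtain ⟨h1, h2⟩ := hn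
    beta_reduce at h2
    rw [dif_pos h1] at h2
    refine ⟨(e.symm ⟨n, h1⟩ : {x // x ∈ T}), mem_filter.2 ⟨(e.symm ⟨n, h1⟩).2, h2⟩, ?_⟩
    simp

lemma sig_card {τ : Type} (S₀ : Finset τ) (S₁ : τ → Finset ℕ) (m : τ → ℕ) (R : τ → ℕ → Prop) :
    ((S₀.sigma fun i => S₁ i ×ˢ range (m i)).filter fun t => R t.1 t.2.1).card =
      ∑ i ∈ S₀, ((S₁ i).filter (R i)).card * m i := by
  have e : (S₀.sigma fun i => S₁ i ×ˢ range (m i)).filter (fun t => R t.1 t.2.1) =
      S₀.sigma fun i => ((S₁ i).filter (R i)) ×ˢ range (m i) := by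
    ext ⟨i, j, l⟩
    simp only [mem_filter, mem_sigma, mem_product]
    tauto
  rw [e, card_sigma]
  exact sum_congr rfl fun i _ => by rw [card_product, card_range]

/-- the residues of the pairs of a fibred family -/
theorem pair_count {N : ℕ} (hN : 1 ≤ N) {τ : Type} {S₀ : Finset τ} {w₀ : τ → ℤ} (h0 : Uni N S₀ w₀) (S₁ : τ → Finset ℕ)
    (w₁ : τ → ℕ → ℤ) (h1 : ∀ i ∈ S₀, Uni N (S₁ i) (w₁ i)) (hne : ∀ i ∈ S₀, (S₁ i).Nonempty) (M : ℕ)
    (hM : ∀ i ∈ S₀, (S₁ i).card ∣ M) (q : ℕ) (hq : 1 ≤ q) (hqN : q ≤ N ^ 2) (a b : ℤ) :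
    |(((S₀.sigma fun i => S₁ i ×ˢ range (M / (S₁ i).card)).filter
      fun t => (q : ℤ) ∣ w₀ t.1 - a ∧ (q : ℤ) ∣ w₁ t.1 t.2.1 - b).card : ℝ) - S₀.card * M / (q : ℝ) ^ 2| ≤
      2 * (S₀.card * M) / (N : ℝ) ^ 2 := by
  have hq0 : (0 : ℝ) < q := by exact_mod_cast hq
  have hq1 : (1 : ℝ) ≤ q := by exact_mod_cast hq
  have hN0 : (0 : ℝ) < N := by exact_mod_cast hN
  have hM0 : (0 : ℝ) ≤ M := Nat.cast_nonneg _
  have hS0 : (0 : ℝ) ≤ S₀.card := Nat.cast_nonneg _
  have e0 : ((S₀.sigma fun i => S₁ i ×ˢ range (M / (S₁ i).card)).filter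
      fun t => (q : ℤ) ∣ w₀ t.1 - a ∧ (q : ℤ) ∣ w₁ t.1 t.2.1 - b).card =
      ∑ i ∈ S₀, ((S₁ i).filter fun j => (q : ℤ) ∣ w₀ i - a ∧ (q : ℤ) ∣ w₁ i j - b).card * (M / (S₁ i).card) := by
    convert sig_card S₀ S₁ (fun i => M / (S₁ i).card) (fun i j => (q : ℤ) ∣ w₀ i - a ∧ (q : ℤ) ∣ w₁ i j - b)
  rw [e0]
  push_cast
  have e1 : ∀ i ∈ S₀, (((S₁ i).filter fun j => (q : ℤ) ∣ w₀ i - a ∧ (q : ℤ) ∣ w₁ i j - b).card : ℝ) *
      ((M / (S₁ i).card : ℕ) : ℝ) = if (q : ℤ) ∣ w₀ i - a then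
        (((S₁ i).filter fun j => (q : ℤ) ∣ w₁ i j - b).card : ℝ) * (M / (S₁ i).card) else 0 := by
    intro i hi
    have hc0 : ((S₁ i).card : ℝ) ≠ 0 := by exact_mod_cast (hne i hi).card_pos.ne'
    rw [Nat.cast_div (hM i hi) hc0]
    by_cases h : (q : ℤ) ∣ w₀ i - a
    · rw [if_pos h]
      simp only [h, true_and]
    · rw [if_neg h]
      simp only [h, false_and, filter_false, card_empty, Nat.cast_zero, zero_mul]
  rw [sum_congr rfl e1, ← sum_filter]
  have h3 : |∑ i ∈ S₀.filter (fun i => (q : ℤ) ∣ w₀ i - a),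
      ((((S₁ i).filter fun j => (q : ℤ) ∣ w₁ i j - b).card : ℝ) * (M / (S₁ i).card) - M / q)| ≤
      S₀.card * (M / (N : ℝ) ^ 2) := by
    refine (abs_sum_le_sum_abs _ _).trans ?_
    have h4 : ∀ i ∈ S₀.filter (fun i => (q : ℤ) ∣ w₀ i - a),
        |(((S₁ i).filter fun j => (q : ℤ) ∣ w₁ i j - b).card : ℝ) * (M / (S₁ i).card) - M / q| ≤ M / (N : ℝ) ^ 2 := by
      intro i hi
      have hi' := (mem_filter.1 hi).1
      have hc0 : (0 : ℝ) < (S₁ i).card := by exact_mod_cast (hne i hi').card_pos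
      have h5 := h1 i hi' q hq hqN b
      have e2 : (((S₁ i).filter fun j => (q : ℤ) ∣ w₁ i j - b).card : ℝ) * (M / (S₁ i).card) - M / q =
          ((((S₁ i).filter fun j => (q : ℤ) ∣ w₁ i j - b).card : ℝ) - (S₁ i).card / q) * (M / (S₁ i).card) := by
        field_simp
      rw [e2, abs_mul, abs_of_nonneg (show (0 : ℝ) ≤ M / (S₁ i).card by positivity)]
      calc _ ≤ ((S₁ i).card / (N : ℝ) ^ 2) * (M / (S₁ i).card) := mul_le_mul_of_nonneg_right h5 (by positivity)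
        _ = M / (N : ℝ) ^ 2 := by field_simp
    refine (sum_le_sum h4).trans ?_
    rw [sum_const, nsmul_eq_mul]
    apply mul_le_mul_of_nonneg_right _ (by positivity)
    exact_mod_cast card_le_card (filter_subset _ _)
  rw [sum_sub_distrib, sum_const, nsmul_eq_mul] at h3
  have h6 := h0 q hq hqN a
  have h7 : |((S₀.filter fun i => (q : ℤ) ∣ w₀ i - a).card : ℝ) * (M / q) - S₀.card * M / (q : ℝ) ^ 2| ≤
      S₀.card * (M / (N : ℝ) ^ 2) := by
    have e3 : ((S₀.filter fun i => (q : ℤ) ∣ w₀ i - a).card : ℝ) * (M / q) - S₀.card * M / (q : ℝ) ^ 2 =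
        (((S₀.filter fun i => (q : ℤ) ∣ w₀ i - a).card : ℝ) - S₀.card / q) * (M / q) := by
      field_simp
    rw [e3, abs_mul, abs_of_nonneg (show (0 : ℝ) ≤ M / q by positivity)]
    calc _ ≤ (S₀.card / (N : ℝ) ^ 2) * (M / 1) := by
          apply mul_le_mul h6 _ (by positivity) (by positivity)
          exact div_le_div_of_nonneg_left hM0 one_pos hq1
      _ = S₀.card * (M / (N : ℝ) ^ 2) := by ring
  have h8 := abs_sub_le (∑ i ∈ S₀.filter (fun i => (q : ℤ) ∣ w₀ i - a),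
      (((S₁ i).filter fun j => (q : ℤ) ∣ w₁ i j - b).card : ℝ) * (M / (S₁ i).card))
      (((S₀.filter fun i => (q : ℤ) ∣ w₀ i - a).card : ℝ) * (M / q)) (S₀.card * M / (q : ℝ) ^ 2)
  have e4 : 2 * ((S₀.card : ℝ) * M) / (N : ℝ) ^ 2 = S₀.card * (M / (N : ℝ) ^ 2) + S₀.card * (M / (N : ℝ) ^ 2) := by ring
  rw [e4]
  linarith

/-- the property for almost all members of all families of second coordinates -/
def One (N : ℕ) (β : ℝ) (P : ℤ → ℤ → Prop) (a : ℤ) : Prop :=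
  ∀ (S : Finset ℕ) (w : ℕ → ℤ), S.Nonempty → Uni N S w → ((S.filter fun j => ¬ P a (w j)).card : ℝ) ≤ β * S.card

/-- a natural number in the same residue classes to the moduli up to `2 H + 1` -/
def gn (H : ℕ) (v : ℤ) : ℕ := (v % ((2 * H + 1).factorial : ℤ)).toNat

lemma gn_dvd (H : ℕ) (v : ℤ) (q : ℕ) (hq : 1 ≤ q) (hqH : q ≤ 2 * H + 1) : (q : ℤ) ∣ (gn H v : ℤ) - v := by
  unfold gn
  have h1 : (0 : ℤ) < ((2 * H + 1).factorial : ℤ) := by exact_mod_cast Nat.factorial_pos _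
  rw [Int.toNat_of_nonneg (Int.emod_nonneg _ h1.ne')]
  have h2 : (q : ℤ) ∣ ((2 * H + 1).factorial : ℤ) := by exact_mod_cast Nat.dvd_factorial hq hqH
  have h3 : ((2 * H + 1).factorial : ℤ) ∣ v % ((2 * H + 1).factorial : ℤ) - v := by
    have := Int.dvd_self_sub_emod (x := v) (m := ((2 * H + 1).factorial : ℤ))
    rw [← dvd_neg, neg_sub]
    exact this
  exact h2.trans h3

lemma res_iff (H : ℕ) (v : ℤ) (q : ℕ) (hq : 1 ≤ q) (hqH : q ≤ 2 * H + 1) (r : ℕ) (hr : r < q) :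
    gn H v % q = r ↔ (q : ℤ) ∣ v - r := by
  have h1 := gn_dvd H v q hq hqH
  have e1 : gn H v % q = r ↔ (q : ℤ) ∣ (gn H v : ℤ) - r := by
    have e2 : gn H v % q = r ↔ ((gn H v : ℤ) % q = (r : ℤ) % q) := by
      constructor
      · intro h
        have : ((gn H v % q : ℕ) : ℤ) = ((r % q : ℕ) : ℤ) := by rw [h, Nat.mod_eq_of_lt hr]
        push_cast at this
        exact this
      · intro h
        have : ((gn H v % q : ℕ) : ℤ) = ((r % q : ℕ) : ℤ) := by push_cast; exact h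
        rw [Nat.mod_eq_of_lt hr] at this
        exact_mod_cast this
    rw [e2, Int.emod_eq_emod_iff_emod_sub_eq_zero]
    exact (Int.dvd_iff_emod_eq_zero).symm
  rw [e1]
  constructor
  · intro h
    have := dvd_sub h h1
    have e : (gn H v : ℤ) - r - ((gn H v : ℤ) - v) = v - r := by ring
    rwa [e] at this
  · intro h
    have := dvd_add h h1
    have e : v - r + ((gn H v : ℤ) - v) = (gn H v : ℤ) - r := by ring
    rwa [e] at this

/-- **from families of pairs to almost all first coordinates** -/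
theorem two {H N : ℕ} (hH : 1 ≤ H) (hN : N = (2 * H + 1) ^ 2) (β : ℝ) (hβ : 0 < β) (E : ℕ → ℕ → Prop) (P : ℤ → ℤ → Prop)
    (heng : ∀ (S : Finset ℕ) (u : ℕ → Fin 2 → ℕ), WellN S u H →
      ((S.filter fun t => ¬ E (u t 0) (u t 1)).card : ℝ) ≤ β ^ 2 * S.card)
    (hlift : ∀ a b : ℤ, E (gn H a) (gn H b) → P a b)
    {τ : Type} (S₀ : Finset τ) (w₀ : τ → ℤ) (h0 : Uni N S₀ w₀) :
    ((S₀.filter fun i => ¬ One N β P (w₀ i)).card : ℝ) ≤ β * S₀.card := by
  by_contra hcon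
  push Not at hcon
  have hS0 : (0 : ℝ) ≤ S₀.card := Nat.cast_nonneg _
  have hbne : (S₀.filter fun i => ¬ One N β P (w₀ i)).Nonempty := by
    rw [← Finset.card_pos]
    have : (0 : ℝ) < (S₀.filter fun i => ¬ One N β P (w₀ i)).card := lt_of_le_of_lt (by positivity) hcon
    exact_mod_cast this
  obtain ⟨i₀, hi₀⟩ := hbne
  have hviol : ∀ i, ¬ One N β P (w₀ i) → ∃ (S : Finset ℕ) (w : ℕ → ℤ), S.Nonempty ∧ Uni N S w ∧
      β * S.card < ((S.filter fun j => ¬ P (w₀ i) (w j)).card : ℝ) := by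
    intro i hi
    unfold One at hi
    push Not at hi
    exact hi
  obtain ⟨S', w', hS', hw', _⟩ := hviol i₀ (mem_filter.1 hi₀).2
  have hch : ∀ i, ∃ (S : Finset ℕ) (w : ℕ → ℤ), S.Nonempty ∧ Uni N S w ∧
      (¬ One N β P (w₀ i) → β * S.card ≤ ((S.filter fun j => ¬ P (w₀ i) (w j)).card : ℝ)) := by
    intro i
    by_cases hi : One N β P (w₀ i)
    · exact ⟨S', w', hS', hw', fun h => absurd hi h⟩
    · obtain ⟨S, w, h1, h2, h3⟩ := hviol i hi
      exact ⟨S, w, h1, h2, fun _ => h3.le⟩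
  choose S₁ w₁ hne huni hbad using hch
  obtain ⟨M, hM⟩ : ∃ M, M = ∏ i ∈ S₀, (S₁ i).card := ⟨_, rfl⟩
  have hM0 : 0 < M := by
    rw [hM]
    exact Finset.prod_pos fun i _ => (hne i).card_pos
  have hMd : ∀ i ∈ S₀, (S₁ i).card ∣ M := by
    intro i hi
    rw [hM]
    exact Finset.dvd_prod_of_mem _ hi
  have hMr : (0 : ℝ) < M := by exact_mod_cast hM0
  obtain ⟨T, hT⟩ : ∃ T, T = S₀.sigma fun i => S₁ i ×ˢ range (M / (S₁ i).card) := ⟨_, rfl⟩
  have hTc : (T.card : ℝ) = S₀.card * M := by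
    rw [hT, card_sigma]
    push_cast
    have e1 : ∀ i ∈ S₀, (((S₁ i ×ˢ range (M / (S₁ i).card)).card : ℕ) : ℝ) = M := by
      intro i hi
      rw [card_product, card_range]
      exact_mod_cast Nat.mul_div_cancel' (hMd i hi)
    rw [sum_congr rfl e1, sum_const, nsmul_eq_mul]
  obtain ⟨u, hu⟩ : ∃ u : (Σ _ : τ, ℕ × ℕ) → Fin 2 → ℕ, u = fun t => ![gn H (w₀ t.1), gn H (w₁ t.1 t.2.1)] := ⟨_, rfl⟩
  obtain ⟨u', hu'⟩ := tr T u
  have hi₀S := (mem_filter.1 hi₀).1
  have hS0p : (0 : ℝ) < S₀.card := by exact_mod_cast Finset.card_pos.2 ⟨i₀, hi₀S⟩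
  have hTp : (0 : ℝ) < T.card := by rw [hTc]; positivity
  have hHr : (1 : ℝ) ≤ H := by exact_mod_cast hH
  have hN1 : 1 ≤ N := by rw [hN]; exact Nat.one_le_pow _ _ (by omega)
  have hNr : (N : ℝ) = (2 * H + 1) ^ 2 := by rw [hN]; push_cast; ring
  have hW : WellN (range T.card) u' H := by
    constructor
    · rw [card_range]
      exact_mod_cast hTp
    · intro q hq hqH r hr
      rw [mem_box] at hr
      have e0 : ((range T.card).filter fun n => (fun i => u' n i % q) = r).card =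
          (T.filter fun t => (fun i => u t i % q) = r).card := by
        convert hu' (fun v => (fun i => v i % q) = r)
      rw [card_range, e0]
      have e1 : (T.filter fun t => (fun i => u t i % q) = r) =
          T.filter fun t => (q : ℤ) ∣ w₀ t.1 - (r 0 : ℕ) ∧ (q : ℤ) ∣ w₁ t.1 t.2.1 - (r 1 : ℕ) := by
        apply filter_congr
        intro t _
        rw [← res_iff H (w₀ t.1) q hq hqH (r 0) (hr 0), ← res_iff H (w₁ t.1 t.2.1) q hq hqH (r 1) (hr 1), hu]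
        constructor
        · intro h
          exact ⟨congrFun h 0, congrFun h 1⟩
        · rintro ⟨h1, h2⟩
          funext i
          fin_cases i
          · exact h1
          · exact h2
      rw [e1]
      have hq0 : (0 : ℝ) < q := by exact_mod_cast hq
      have hqr : (q : ℝ) ≤ 2 * H + 1 := by exact_mod_cast hqH
      have hqN : q ≤ N ^ 2 := by
        calc q ≤ 2 * H + 1 := hqH
          _ ≤ (2 * H + 1) ^ 4 := Nat.le_self_pow (by norm_num) _
          _ = N ^ 2 := by rw [hN]; ring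
      have h2 := pair_count hN1 h0 S₁ w₁ (fun i _ => huni i) (fun i _ => hne i) M hMd q hq hqN (r 0 : ℕ) (r 1 : ℕ)
      rw [← hT, ← hTc] at h2
      have e2 : ∀ X : ℝ, X / T.card - 1 / (q : ℝ) ^ 2 = (X - T.card / (q : ℝ) ^ 2) / T.card := by
        intro X
        field_simp
      rw [e2, abs_div, abs_of_pos hTp, div_le_iff₀ hTp]
      refine h2.trans ?_
      rw [hNr]
      have hK : (3 : ℝ) ≤ 2 * H + 1 := by linarith
      have e3 : 1 / (2 * (H : ℝ) + 1) * (1 / (q : ℝ) ^ 2) * T.card = T.card / ((2 * H + 1) * (q : ℝ) ^ 2) := by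
        field_simp
      have e4 : 2 * (T.card : ℝ) / ((2 * (H : ℝ) + 1) ^ 2) ^ 2 = T.card / (((2 * (H : ℝ) + 1) ^ 2) ^ 2 / 2) := by
        field_simp
      rw [e3, e4]
      apply div_le_div_of_nonneg_left hTp.le (by positivity)
      have h3 : (q : ℝ) ^ 2 ≤ (2 * H + 1) ^ 2 := pow_le_pow_left₀ hq0.le hqr 2
      have h4 : ((2 * (H : ℝ) + 1) ^ 2) ^ 2 = (2 * H + 1) * (2 * H + 1) ^ 3 := by ring
      have h5 : (2 * (H : ℝ) + 1) * (q : ℝ) ^ 2 ≤ (2 * H + 1) ^ 3 := by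
        calc _ ≤ (2 * (H : ℝ) + 1) * (2 * H + 1) ^ 2 := mul_le_mul_of_nonneg_left h3 (by positivity)
          _ = _ := by ring
      have h6 : (0 : ℝ) ≤ (2 * H + 1) ^ 3 := by positivity
      rw [h4]
      nlinarith
  have h1 := heng (range T.card) u' hW
  have e0 : ((range T.card).filter fun t => ¬ E (u' t 0) (u' t 1)).card =
      (T.filter fun t => ¬ E (u t 0) (u t 1)).card := by
    convert hu' (fun v => ¬ E (v 0) (v 1))
  rw [card_range, e0] at h1
  have h2 : β * M * ((S₀.filter fun i => ¬ One N β P (w₀ i)).card : ℝ) ≤ ((T.filter fun i => ¬ E (u i 0) (u i 1)).card : ℝ) := by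
    have h3 : (T.filter fun t => ¬ P (w₀ t.1) (w₁ t.1 t.2.1)) ⊆ T.filter fun i => ¬ E (u i 0) (u i 1) := by
      intro t ht
      rw [mem_filter] at ht ⊢
      refine ⟨ht.1, fun h => ht.2 ?_⟩
      rw [hu] at h
      exact hlift _ _ h
    have h5 : ((T.filter fun t => ¬ P (w₀ t.1) (w₁ t.1 t.2.1)).card : ℝ) ≤ ((T.filter fun i => ¬ E (u i 0) (u i 1)).card : ℝ) := by
      exact_mod_cast card_le_card h3
    refine le_trans ?_ h5
    have e3 : (T.filter fun t => ¬ P (w₀ t.1) (w₁ t.1 t.2.1)).card =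
        ∑ i ∈ S₀, ((S₁ i).filter fun j => ¬ P (w₀ i) (w₁ i j)).card * (M / (S₁ i).card) := by
      rw [hT]
      convert sig_card S₀ S₁ (fun i => M / (S₁ i).card) (fun i j => ¬ P (w₀ i) (w₁ i j))
    rw [e3]
    push_cast
    have h6 : ∑ i ∈ S₀.filter (fun i => ¬ One N β P (w₀ i)), β * M ≤ ∑ i ∈ S₀.filter (fun i => ¬ One N β P (w₀ i)),
        (((S₁ i).filter fun j => ¬ P (w₀ i) (w₁ i j)).card : ℝ) * ((M / (S₁ i).card : ℕ) : ℝ) := by
      apply sum_le_sum
      intro i hi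
      rw [mem_filter] at hi
      have hc0 : (0 : ℝ) < (S₁ i).card := by exact_mod_cast (hne i).card_pos
      rw [Nat.cast_div (hMd i hi.1) hc0.ne']
      calc β * (M : ℝ) = (β * (S₁ i).card) * (M / (S₁ i).card) := by field_simp
        _ ≤ _ := mul_le_mul_of_nonneg_right (hbad i hi.2) (by positivity)
    rw [sum_const, nsmul_eq_mul] at h6
    have h7 : ∑ i ∈ S₀.filter (fun i => ¬ One N β P (w₀ i)),
        (((S₁ i).filter fun j => ¬ P (w₀ i) (w₁ i j)).card : ℝ) * ((M / (S₁ i).card : ℕ) : ℝ) ≤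
        ∑ i ∈ S₀, (((S₁ i).filter fun j => ¬ P (w₀ i) (w₁ i j)).card : ℝ) * ((M / (S₁ i).card : ℕ) : ℝ) :=
      sum_le_sum_of_subset_of_nonneg (filter_subset _ _) fun i _ _ => by positivity
    linarith
  have h3 : β * M * ((S₀.filter fun i => ¬ One N β P (w₀ i)).card : ℝ) ≤ β * M * (β * S₀.card) := by
    refine h2.trans (h1.trans (le_of_eq ?_))
    rw [hTc]
    ring
  have h4 := le_of_mul_le_mul_left h3 (by positivity)
  linarith

end Pool.Agent.Run7.h582.CF
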