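import Pool.Agent.Run7.h582.CF.Two1
import Pool.Agent.Run7.h582.FM.Eg3

set_option autoImplicit false

/-!
Almost all pairs `(s, t)` with respect to two measures with polynomial Fourier decay: the properties of the pairs of integers
near `lam₀ n * s + c₀ n` and `lam₁ n * t + c₁ n`.
-/

namespace Pool.Agent.Run7.h582.CF

open Finset Filter MeasureTheory
open Pool.Agent.Run7.h582.OD (Uni uni_of_ch)
open Pool.Agent.Run7.h582.FM (CH hasCls_ch cls_measure bc0 Decay near_family)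
open Pool.Agent.N647.TS (WellN)
open scoped Classical

/-- the hypothesis on the property of pairs -/
def Eng (H : ℕ) (β : ℝ) (P : ℤ → ℤ → Prop) : Prop := ∃ E : ℕ → ℕ → Prop,
  (∀ (S : Finset ℕ) (u : ℕ → Fin 2 → ℕ), WellN S u H →
    ((S.filter fun t => ¬ E (u t 0) (u t 1)).card : ℝ) ≤ β ^ 2 * S.card) ∧
  ∀ a b : ℤ, E (gn H a) (gn H b) → P a b

lemma tr_uni {N : ℕ} {τ : Type} (S : Finset τ) (w : τ → ℤ) (hne : S.Nonempty) (h : Uni N S w) : ∃ (S' : Finset ℕ) (w' : ℕ → ℤ),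
    S'.Nonempty ∧ S'.card = S.card ∧ Uni N S' w' ∧ ∀ Q : ℤ → Prop, (S'.filter fun n => Q (w' n)).card = (S.filter fun i => Q (w i)).card := by
  obtain ⟨w', hw'⟩ := tr S w
  refine ⟨range S.card, w', ?_, card_range _, ?_, hw'⟩
  · rw [nonempty_range_iff]
    exact hne.card_pos.ne'
  · intro q hq hqN a
    have e0 : ((range S.card).filter fun i => (q : ℤ) ∣ w' i - a).card = (S.filter fun i => (q : ℤ) ∣ w i - a).card := by
      convert hw' (fun v => (q : ℤ) ∣ v - a)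
    rw [e0, card_range]
    exact h q hq hqN a

/-- one scale -/
theorem scale_two (μ₀ μ₁ : Measure ℝ) (h₀ : Decay μ₀) (h₁ : Decay μ₁) : ∃ (A : ℕ) (C : ℝ), 1 ≤ A ∧ 0 < C ∧
    ∀ (lam₀ lam₁ : ℝ), 1 ≤ lam₀ → 1 ≤ lam₁ → ∀ (H : ℕ), 1 ≤ H →
    (4 : ℝ) ^ A * (2 * H + 1) ^ (4 * A + 4) ≤ lam₀ → (4 : ℝ) ^ A * (2 * H + 1) ^ (4 * A + 4) ≤ lam₁ →
    ∀ (β : ℝ), 0 < β → ∀ P : ℤ → ℤ → Prop, Eng H β P → ∀ D : ℕ,
    (∀ c₀ : ℝ, μ₀.real {s | ¬ ∀ a : ℤ, |(a : ℝ) - (lam₀ * s + c₀)| ≤ D → One ((2 * H + 1) ^ 2) β P a} ≤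
      C * ((2 * D + 5) * β + 1 / lam₀)) ∧
    (∀ a : ℤ, One ((2 * H + 1) ^ 2) β P a → ∀ c₁ : ℝ,
      μ₁.real {t | ¬ ∀ b : ℤ, |(b : ℝ) - (lam₁ * t + c₁)| ≤ D → P a b} ≤ C * ((2 * D + 5) * β + 1 / lam₁)) := by
  obtain ⟨A₀, C₀, hA₀, hC₀, k₀⟩ := cls_measure CH hasCls_ch μ₀ h₀
  obtain ⟨A₁, C₁, hA₁, hC₁, k₁⟩ := cls_measure CH hasCls_ch μ₁ h₁
  refine ⟨A₀ + A₁, C₀ + C₁, by omega, by linarith, fun lam₀ lam₁ hl₀ hl₁ H hH hc₀ hc₁ β hβ P hP D => ?_⟩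
  have huni : ∀ A' : ℕ, 1 ≤ A' → A' ≤ A₀ + A₁ → ∀ (lam : ℝ), (4 : ℝ) ^ (A₀ + A₁) * (2 * H + 1) ^ (4 * (A₀ + A₁) + 4) ≤ lam →
      ∀ k : ℕ, lam ≤ 2 ^ k → ∀ (τ : Type) (S : Finset τ) (w : τ → ℤ), CH A' k τ S w → Uni ((2 * H + 1) ^ 2) S w := by
    intro A' hA1 hA2 lam hlam k hk τ S w hcls
    apply uni_of_ch hA1 (Nat.one_le_pow _ _ (by omega)) _ hcls
    refine le_trans ?_ (hlam.trans hk)
    push_cast
    rw [← pow_mul]
    have hK : (1 : ℝ) ≤ 2 * H + 1 := by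
      have : (0 : ℝ) ≤ H := Nat.cast_nonneg _
      linarith
    apply mul_le_mul (pow_le_pow_right₀ (by norm_num) hA2) _ (by positivity) (by positivity)
    exact pow_le_pow_right₀ hK (by omega)
  have hβD : (0 : ℝ) ≤ (2 * D + 5) * β := by positivity
  constructor
  · intro c₀
    have h1 := k₀ lam₀ c₀ hl₀ D (One ((2 * H + 1) ^ 2) β P) β hβ.le (by
      intro k hk τ S w hne hcls
      have h2 := huni A₀ hA₀ (by omega) lam₀ hc₀ k hk τ S w hcls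
      obtain ⟨E, hE, hlift⟩ := hP
      have h3 := two hH rfl β hβ E P hE hlift S w h2
      refine le_trans (le_of_eq ?_) h3
      rw [← Set.ncard_coe_finset]
      congr 2
      ext i
      simp)
    refine h1.trans ?_
    apply mul_le_mul_of_nonneg_right (by linarith)
    have : 0 ≤ 1 / lam₀ := by positivity
    linarith
  · intro a ha c₁
    have h1 := k₁ lam₁ c₁ hl₁ D (P a) β hβ.le (by
      intro k hk τ S w hne hcls
      have h2 := huni A₁ hA₁ (by omega) lam₁ hc₁ k hk τ S w hcls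
      obtain ⟨S', w', hne', hcard, hu', hQ⟩ := tr_uni S w hne h2
      have h3 := ha S' w' hne' hu'
      rw [hcard] at h3
      have e0 : (S'.filter fun j => ¬ P a (w' j)).card = (S.filter fun i => ¬ P a (w i)).card := by
        convert hQ (fun v => ¬ P a v)
      rw [e0] at h3
      refine le_trans (le_of_eq ?_) h3
      rw [← Set.ncard_coe_finset]
      congr 2
      ext i
      simp)
    refine h1.trans ?_
    apply mul_le_mul_of_nonneg_right (by linarith)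
    have : 0 ≤ 1 / lam₁ := by positivity
    linarith

/-- the choice of the range -/
lemma range_of (A : ℕ) : ∃ σ : ℝ, 0 < σ ∧ ∃ L₀ : ℝ, 1 ≤ L₀ ∧ ∀ lam : ℝ, L₀ ≤ lam → ∃ H : ℕ, 1 ≤ H ∧
    (4 : ℝ) ^ A * (2 * H + 1) ^ (4 * A + 4) ≤ lam ∧ lam ^ σ ≤ 2 * H + 1 := by
  obtain ⟨σ, hσ⟩ : ∃ σ : ℝ, σ = 1 / (8 * (A + 1)) := ⟨_, rfl⟩
  have hA0 : (0 : ℝ) ≤ A := Nat.cast_nonneg _
  have hσ0 : 0 < σ := by rw [hσ]; positivity
  obtain ⟨L₁, hL₁⟩ := eventually_atTop.1 (((tendsto_rpow_atTop (show (0 : ℝ) < 1 / 2 by norm_num)).eventually_ge_atTop ((4 : ℝ) ^ A)).and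
    ((tendsto_rpow_atTop (show (0 : ℝ) < σ / 2 by positivity)).eventually_ge_atTop 4))
  refine ⟨σ / 2, by positivity, max L₁ 1, le_max_right _ _, fun lam hlam => ?_⟩
  have hl1 : 1 ≤ lam := (le_max_right _ _).trans hlam
  have hl0 : 0 < lam := by linarith
  obtain ⟨g1, g2⟩ := hL₁ lam ((le_max_left _ _).trans hlam)
  obtain ⟨z, hz⟩ : ∃ z, z = lam ^ (σ / 2) := ⟨_, rfl⟩
  rw [← hz] at g2
  have hz2 : lam ^ σ = z ^ 2 := by
    rw [hz, ← Real.rpow_natCast, ← Real.rpow_mul hl0.le]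
    congr 1
    push_cast
    ring
  refine ⟨⌊z⌋₊, ?_, ?_, ?_⟩
  · exact Nat.le_floor (by push_cast; linarith)
  · have h1 := Nat.floor_le (show 0 ≤ z by linarith)
    have h2 : (2 * (⌊z⌋₊ : ℝ) + 1) ≤ lam ^ σ := by
      rw [hz2]
      nlinarith
    have h3 : (2 * (⌊z⌋₊ : ℝ) + 1) ^ (4 * A + 4) ≤ lam ^ (1 / 2 : ℝ) := by
      calc (2 * (⌊z⌋₊ : ℝ) + 1) ^ (4 * A + 4) ≤ (lam ^ σ) ^ (4 * A + 4) := pow_le_pow_left₀ (by positivity) h2 _
        _ = lam ^ (1 / 2 : ℝ) := by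
          rw [← Real.rpow_natCast, ← Real.rpow_mul hl0.le]
          congr 1
          rw [hσ]
          push_cast
          field_simp
          ring
    calc (4 : ℝ) ^ A * (2 * (⌊z⌋₊ : ℝ) + 1) ^ (4 * A + 4) ≤ lam ^ (1 / 2 : ℝ) * lam ^ (1 / 2 : ℝ) :=
          mul_le_mul g1 h3 (by positivity) (by positivity)
      _ = lam := by
        rw [← Real.rpow_add hl0]
        norm_num
  · have h1 := Nat.lt_floor_add_one z
    rw [← hz]
    linarith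

end Pool.Agent.Run7.h582.CF
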