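import Pool.Agent.Run7.h582.CF.Two2

set_option autoImplicit false

/-!
Almost all pairs `(s, t)` with respect to two measures with polynomial Fourier decay: all large `n`.
-/

namespace Pool.Agent.Run7.h582.CF

open Finset Filter MeasureTheory
open Pool.Agent.Run7.h582.FM (bc0 Decay near_family)
open scoped Classical

/-- **almost all pairs** -/
theorem ae_two (μ₀ μ₁ : Measure ℝ) (h₀ : Decay μ₀) (h₁ : Decay μ₁) : ∃ σ : ℝ, 0 < σ ∧ ∀ (ρ : ℝ), 0 < ρ →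
    ∀ B K : ℕ, 2 ≤ ρ * K → ∀ κ₀ : ℝ, κ₀ * ((2 * B + K : ℕ) : ℝ) ≤ 1 →
    ∀ (lam₀ c₀ lam₁ c₁ : ℕ → ℝ) (y : ℕ → ℕ), (∀ᶠ n : ℕ in atTop, (n : ℝ) ^ ρ ≤ y n) → (∀ n, 1 ≤ lam₀ n) → (∀ n, 1 ≤ lam₁ n) →
    ∀ (P : ℕ → ℤ → ℤ → Prop),
    (∀ᶠ n : ℕ in atTop, (∀ a b, P n a b) ∨ ((y n : ℝ) ≤ min (lam₀ n) (lam₁ n) ^ κ₀ ∧
      ∀ H : ℕ, min (lam₀ n) (lam₁ n) ^ σ ≤ 2 * H + 1 → Eng H (1 / (y n : ℝ) ^ (2 * B + K)) (P n))) →
    ∀ᵐ s ∂μ₀, ∀ᵐ t ∂μ₁, ∀ᶠ n : ℕ in atTop, ∀ a b : ℤ, |(a : ℝ) - (lam₀ n * s + c₀ n)| ≤ (y n : ℝ) ^ B →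
      |(b : ℝ) - (lam₁ n * t + c₁ n)| ≤ (y n : ℝ) ^ B → P n a b := by
  obtain ⟨A, C, hA, hC, hsc⟩ := scale_two μ₀ μ₁ h₀ h₁
  obtain ⟨σ, hσ, L₀, hL₀, hr⟩ := range_of A
  refine ⟨σ, hσ, fun ρ hρ B K hK κ₀ hκ lam₀ c₀ lam₁ c₁ y hy hl₀ hl₁ P hP => ?_⟩
  have hf₀ : IsFiniteMeasure μ₀ := h₀.1
  have hf₁ : IsFiniteMeasure μ₁ := h₁.1
  have hK1 : 1 ≤ K := by
    rcases Nat.eq_zero_or_pos K with h | h
    · subst h
      norm_num at hK
    · exact h
  obtain ⟨β, hβ⟩ : ∃ β : ℕ → ℝ, β = fun n => 1 / (y n : ℝ) ^ (2 * B + K) := ⟨_, rfl⟩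
  obtain ⟨G, hG⟩ : ∃ G : ℕ → ℕ → Prop, G = fun (n H : ℕ) => 1 ≤ H ∧ (4 : ℝ) ^ A * (2 * H + 1) ^ (4 * A + 4) ≤ lam₀ n ∧
      (4 : ℝ) ^ A * (2 * H + 1) ^ (4 * A + 4) ≤ lam₁ n ∧ Eng H (β n) (P n) := ⟨_, rfl⟩
  have hev : ∀ᶠ n : ℕ in atTop, 1 ≤ n ∧ 1 ≤ y n ∧ (n : ℝ) ^ 2 ≤ (y n : ℝ) ^ K ∧ ((∀ a b, P n a b) ∨
      (1 / lam₀ n ≤ β n ∧ 1 / lam₁ n ≤ β n ∧ ∃ H, G n H)) := by
    filter_upwards [hy, hP, eventually_ge_atTop 1,
      ((tendsto_rpow_atTop hρ).comp tendsto_natCast_atTop_atTop).eventually_ge_atTop L₀] with n h1 h2 hn h3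
    rw [Function.comp_apply] at h3
    have hn1 : (1 : ℝ) ≤ n := by exact_mod_cast hn
    have hy1r : (1 : ℝ) ≤ y n := by linarith
    have hy1 : 1 ≤ y n := by exact_mod_cast hy1r
    refine ⟨hn, hy1, ?_, ?_⟩
    · calc (n : ℝ) ^ 2 = (n : ℝ) ^ (2 : ℝ) := (Real.rpow_two _).symm
        _ ≤ (n : ℝ) ^ (ρ * K) := Real.rpow_le_rpow_of_exponent_le hn1 hK
        _ = ((n : ℝ) ^ ρ) ^ K := by rw [Real.rpow_mul (by linarith), Real.rpow_natCast]
        _ ≤ (y n : ℝ) ^ K := pow_le_pow_left₀ (by positivity) h1 K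
    · rcases h2 with h2 | ⟨h2, h4⟩
      · exact Or.inl h2
      · right
        obtain ⟨lam, hlam⟩ : ∃ lam, lam = min (lam₀ n) (lam₁ n) := ⟨_, rfl⟩
        rw [← hlam] at h2 h4
        have hlam1 : 1 ≤ lam := by rw [hlam]; exact le_min (hl₀ n) (hl₁ n)
        have hlamp : 0 < lam := by linarith
        have hyl : (y n : ℝ) ^ (2 * B + K) ≤ lam := by
          calc (y n : ℝ) ^ (2 * B + K) ≤ (lam ^ κ₀) ^ (2 * B + K) := pow_le_pow_left₀ (by linarith) h2 _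
            _ = lam ^ (κ₀ * ((2 * B + K : ℕ) : ℝ)) := by rw [Real.rpow_mul hlamp.le, Real.rpow_natCast]
            _ ≤ lam ^ (1 : ℝ) := Real.rpow_le_rpow_of_exponent_le hlam1 hκ
            _ = lam := Real.rpow_one _
        have hyp : (0 : ℝ) < (y n : ℝ) ^ (2 * B + K) := by positivity
        have hβl : 1 / lam ≤ β n := by
          rw [hβ]
          exact one_div_le_one_div_of_le hyp hyl
        have hLl : L₀ ≤ lam := by
          refine (h3.trans h1).trans (le_trans ?_ hyl)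
          exact le_self_pow₀ hy1r (by omega)
        obtain ⟨H, hH1, hH2, hH3⟩ := hr lam hLl
        have hle₀ : lam ≤ lam₀ n := by rw [hlam]; exact min_le_left _ _
        have hle₁ : lam ≤ lam₁ n := by rw [hlam]; exact min_le_right _ _
        refine ⟨(one_div_le_one_div_of_le hlamp hle₀).trans hβl, (one_div_le_one_div_of_le hlamp hle₁).trans hβl, H, ?_⟩
        rw [hG]
        refine ⟨hH1, hH2.trans hle₀, hH2.trans hle₁, ?_⟩
        rw [hβ]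
        exact h4 H hH3
  obtain ⟨Q, hQ⟩ : ∃ Q : ℕ → ℤ → Prop, Q = fun n a => (∀ a b, P n a b) ∨
      ∃ H, G n H ∧ One ((2 * H + 1) ^ 2) (β n) (P n) a := ⟨_, rfl⟩
  have hsum : Summable fun n : ℕ => 32 * C * (1 / (n : ℝ) ^ 2) :=
    (Real.summable_one_div_nat_pow.2 one_lt_two).mul_left _
  have hnum : ∀ n : ℕ, 1 ≤ n → 1 ≤ y n → (n : ℝ) ^ 2 ≤ (y n : ℝ) ^ K → ∀ l : ℝ, 1 ≤ l → 1 / l ≤ β n →
      (2 * ((y n ^ B : ℕ) : ℝ) + 2) * (C * ((2 * ((y n ^ B : ℕ) : ℝ) + 5) * β n + 1 / l)) ≤ 32 * C * (1 / (n : ℝ) ^ 2) := by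
    intro n hn hy1 hyK l hl0 hl
    have hn1 : (1 : ℝ) ≤ n := by exact_mod_cast hn
    have hy1r : (1 : ℝ) ≤ y n := by exact_mod_cast hy1
    obtain ⟨D, hD⟩ : ∃ D : ℝ, D = (y n : ℝ) ^ B := ⟨_, rfl⟩
    have hDc : ((y n ^ B : ℕ) : ℝ) = D := by rw [hD]; push_cast; ring
    have hD1 : 1 ≤ D := by rw [hD]; exact one_le_pow₀ hy1r
    have hβ0 : 0 < β n := by rw [hβ]; positivity
    rw [hDc]
    have e1 : (2 * D + 2) * (C * ((2 * D + 5) * β n + 1 / l)) ≤ (4 * D) * (C * (8 * D * β n)) := by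
      apply mul_le_mul (by linarith) _ _ (by positivity)
      · apply mul_le_mul_of_nonneg_left _ hC.le
        nlinarith
      · have : 0 ≤ 1 / l := by positivity
        positivity
    refine e1.trans ?_
    have e2 : (4 * D) * (C * (8 * D * β n)) = 32 * C * (1 / (y n : ℝ) ^ K) := by
      rw [hβ, hD]
      beta_reduce
      rw [pow_add, pow_mul']
      field_simp
      ring
    rw [e2]
    apply mul_le_mul_of_nonneg_left _ (by positivity)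
    exact one_div_le_one_div_of_le (by positivity) hyK
  have k₀ : ∀ᵐ s ∂μ₀, ∀ᶠ n : ℕ in atTop, s ∉ {s | ¬ ∀ a : ℤ, |(a : ℝ) - (lam₀ n * s + c₀ n)| ≤ ((y n ^ B : ℕ) : ℝ) → Q n a} := by
    refine bc0 μ₀ _ (fun n : ℕ => 32 * C * (1 / (n : ℝ) ^ 2)) hsum ?_
    filter_upwards [hev] with n hn
    obtain ⟨hn1, hy1, hyK, hn2⟩ := hn
    have hnonneg : (0 : ℝ) ≤ 32 * C * (1 / (n : ℝ) ^ 2) := by positivity
    rcases hn2 with h | ⟨hb₀, hb₁, H, hH⟩
    · have e : {s | ¬ ∀ a : ℤ, |(a : ℝ) - (lam₀ n * s + c₀ n)| ≤ ((y n ^ B : ℕ) : ℝ) → Q n a} = ∅ := by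
        ext s
        simp only [Set.mem_ofPred_eq, Set.mem_empty_iff_false, iff_false, not_not]
        intro a _
        rw [hQ]
        exact Or.inl h
      rw [e, measureReal_empty]
      exact hnonneg
    · have hH' := hH
      rw [hG] at hH'
      obtain ⟨g1, g2, g3, g4⟩ := hH'
      have hβ0 : 0 < β n := by
        rw [hβ]
        have : (0 : ℝ) < y n := by exact_mod_cast hy1
        positivity
      have h1 := (hsc (lam₀ n) (lam₁ n) (hl₀ n) (hl₁ n) H g1 g2 g3 (β n) hβ0 (P n) g4 (y n ^ B)).1 (c₀ n)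
      refine (measureReal_mono ?_ (measure_ne_top μ₀ _)).trans (h1.trans ?_)
      · intro s hs
        simp only [Set.mem_ofPred_eq] at hs ⊢
        intro hcon
        apply hs
        intro a ha
        rw [hQ]
        exact Or.inr ⟨H, hH, hcon a ha⟩
      · refine le_trans ?_ (hnum n hn1 hy1 hyK (lam₀ n) (hl₀ n) hb₀)
        have h2 : (0 : ℝ) ≤ C * ((2 * ((y n ^ B : ℕ) : ℝ) + 5) * β n + 1 / lam₀ n) := measureReal_nonneg.trans h1
        have h3 : (1 : ℝ) ≤ 2 * ((y n ^ B : ℕ) : ℝ) + 2 := by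
          have : (0 : ℝ) ≤ ((y n ^ B : ℕ) : ℝ) := Nat.cast_nonneg _
          linarith
        nlinarith
  filter_upwards [k₀] with s hs
  have k₁ : ∀ᵐ t ∂μ₁, ∀ᶠ n : ℕ in atTop, t ∉ {t | ¬ ∀ a : ℤ, |(a : ℝ) - (lam₀ n * s + c₀ n)| ≤ ((y n ^ B : ℕ) : ℝ) →
      ∀ b : ℤ, |(b : ℝ) - (lam₁ n * t + c₁ n)| ≤ ((y n ^ B : ℕ) : ℝ) → P n a b} := by
    refine bc0 μ₁ _ (fun n : ℕ => 32 * C * (1 / (n : ℝ) ^ 2)) hsum ?_
    filter_upwards [hev, hs] with n hn hsn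
    obtain ⟨hn1, hy1, hyK, hn2⟩ := hn
    have hnonneg : (0 : ℝ) ≤ 32 * C * (1 / (n : ℝ) ^ 2) := by positivity
    rcases hn2 with h | ⟨hb₀, hb₁, _⟩
    · have e : {t | ¬ ∀ a : ℤ, |(a : ℝ) - (lam₀ n * s + c₀ n)| ≤ ((y n ^ B : ℕ) : ℝ) →
          ∀ b : ℤ, |(b : ℝ) - (lam₁ n * t + c₁ n)| ≤ ((y n ^ B : ℕ) : ℝ) → P n a b} = ∅ := by
        ext t
        simp only [Set.mem_ofPred_eq, Set.mem_empty_iff_false, iff_false, not_not]
        intro a _ b _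
        exact h _ _
      rw [e, measureReal_empty]
      exact hnonneg
    · by_cases hall : ∀ a b, P n a b
      · have e : {t | ¬ ∀ a : ℤ, |(a : ℝ) - (lam₀ n * s + c₀ n)| ≤ ((y n ^ B : ℕ) : ℝ) →
            ∀ b : ℤ, |(b : ℝ) - (lam₁ n * t + c₁ n)| ≤ ((y n ^ B : ℕ) : ℝ) → P n a b} = ∅ := by
          ext t
          simp only [Set.mem_ofPred_eq, Set.mem_empty_iff_false, iff_false, not_not]
          intro a _ b _
          exact hall _ _
        rw [e, measureReal_empty]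
        exact hnonneg
      · simp only [not_not] at hsn
        have hβ0 : 0 < β n := by
          rw [hβ]
          have : (0 : ℝ) < y n := by exact_mod_cast hy1
          positivity
        obtain ⟨D, hD⟩ : ∃ D : ℕ, D = y n ^ B := ⟨_, rfl⟩
        have hnum' := hnum n hn1 hy1 hyK (lam₁ n) (hl₁ n) hb₁
        rw [← hD] at hsn hnum' ⊢
        obtain ⟨bd, hbd⟩ : ∃ bd : ℝ, bd = C * ((2 * (D : ℝ) + 5) * β n + 1 / lam₁ n) := ⟨_, rfl⟩
        have hbd0 : 0 ≤ bd := by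
          rw [hbd]
          have : 0 ≤ 1 / lam₁ n := by
            have := hl₁ n
            positivity
          positivity
        obtain ⟨z, hz⟩ : ∃ z : ℝ, z = lam₀ n * s + c₀ n := ⟨_, rfl⟩
        rw [← hz] at hsn ⊢
        obtain ⟨al, hal⟩ : ∃ al : Fin (⌊2 * (D : ℝ)⌋₊ + 2) → ℤ, al = fun (l : Fin (⌊2 * (D : ℝ)⌋₊ + 2)) => ⌈z - (D : ℝ)⌉ + ((l : ℕ) : ℤ) := ⟨_, rfl⟩
        have hone : ∀ l : Fin (⌊2 * (D : ℝ)⌋₊ + 2), μ₁.real {t | |(al l : ℝ) - z| ≤ D ∧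
            ¬ ∀ b : ℤ, |(b : ℝ) - (lam₁ n * t + c₁ n)| ≤ (D : ℝ) → P n (al l) b} ≤ bd := by
          intro l
          by_cases hl : |(al l : ℝ) - z| ≤ D
          · have h1 := hsn (al l) hl
            rw [hQ] at h1
            rcases h1 with h1 | ⟨H, hH, h1⟩
            · exact absurd h1 hall
            · rw [hG] at hH
              obtain ⟨g1, g2, g3, g4⟩ := hH
              have h2 := (hsc (lam₀ n) (lam₁ n) (hl₀ n) (hl₁ n) H g1 g2 g3 (β n) hβ0 (P n) g4 D).2 (al l) h1 (c₁ n)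
              rw [hbd]
              refine (measureReal_mono ?_ (measure_ne_top μ₁ _)).trans h2
              intro t ht
              exact ht.2
          · have e : {t | |(al l : ℝ) - z| ≤ D ∧
                ¬ ∀ b : ℤ, |(b : ℝ) - (lam₁ n * t + c₁ n)| ≤ (D : ℝ) → P n (al l) b} = ∅ := by
              ext t
              simp only [Set.mem_ofPred_eq, Set.mem_empty_iff_false, iff_false]
              intro h
              exact hl h.1
            rw [e, measureReal_empty]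
            exact hbd0
        have hsub : {t | ¬ ∀ a : ℤ, |(a : ℝ) - z| ≤ (D : ℝ) →
            ∀ b : ℤ, |(b : ℝ) - (lam₁ n * t + c₁ n)| ≤ (D : ℝ) → P n a b} ⊆
            ⋃ l : Fin (⌊2 * (D : ℝ)⌋₊ + 2), {t | |(al l : ℝ) - z| ≤ D ∧
              ¬ ∀ b : ℤ, |(b : ℝ) - (lam₁ n * t + c₁ n)| ≤ (D : ℝ) → P n (al l) b} := by
          intro t ht
          simp only [Set.mem_ofPred_eq] at ht
          push Not at ht
          obtain ⟨a, ha, b, hb, hab⟩ := ht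
          obtain ⟨l, hl⟩ := near_family z D a ha
          rw [Set.mem_iUnion]
          refine ⟨l, ?_⟩
          have hal' : al l = a := by rw [hal]; exact hl.symm
          simp only [Set.mem_ofPred_eq]
          rw [hal']
          exact ⟨ha, fun h => hab (h b hb)⟩
        refine (measureReal_mono hsub (measure_ne_top μ₁ _)).trans ((measureReal_iUnion_fintype_le _).trans ?_)
        refine (sum_le_sum fun l _ => hone l).trans ?_
        rw [sum_const, card_univ, Fintype.card_fin, nsmul_eq_mul]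
        refine le_trans ?_ hnum'
        rw [← hbd]
        apply mul_le_mul_of_nonneg_right _ hbd0
        push_cast
        have := Nat.floor_le (show (0 : ℝ) ≤ 2 * D by positivity)
        linarith
  filter_upwards [k₁] with t ht
  filter_upwards [ht] with n hn a b ha hb
  simp only [not_not] at hn
  have e1 : ((y n ^ B : ℕ) : ℝ) = (y n : ℝ) ^ B := by push_cast; ring
  rw [e1] at hn
  exact hn a ha b hb

end Pool.Agent.Run7.h582.CF
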